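import Pool.Agent.MP_3ee8cb_gt.CYE.Top
import Pool.Agent.MP_3ee8cb_gt.CY.Defs
import Pool.Agent.MP_3ee8cb_gt.CYF.Spec
import Pool.Agent.MP_3ee8cb_gt.CYO.Ric

/-! The front over a point. -/

namespace Pool.Agent.MP_3ee8cb_gt.CYE

open DN (Dim dm)

variable [Dim]

open Set Filter Topology MeasureTheory DN
open CYO (C0F Gd)
open scoped RealInnerProductSpace

theorem fr0 {m m' : MF} {φ : V × V → V × V} {a : ℝ} {x : V} (o : m.OK) (o' : m'.OK)
    (cf : C0F m m' φ) (fl : Flp φ) (ha : 0 < a) (L : CY.LIPF m m' φ a)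
    (G : ∀ᵐ v : Metric.sphere (0 : V) 1 ∂(volume : Measure V).toSphere, Gd m m' φ a (x, v)) :
    CYF.Fr0 m' (fr φ x) a := by
  refine ⟨cf.cont.comp (by fun_prop) fun q hq => hq, fun r q hr hq => ?_,
    fun q hq => cf.norm (x, q) hq, fun v hv => ?_, G.mono fun v g => ?_⟩
  · rcases hr.lt_or_gt with h | h
    · have k := cf.hom (-r) x (-q) (neg_pos.2 h) (neg_ne_zero.2 hq)
      rw [smul_neg, neg_smul, neg_neg, fl x q hq, smul_neg, neg_smul, neg_neg] at k
      exact k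
    · exact cf.hom r x q h hq
  · obtain ⟨c, hc, k⟩ := L (x, v) hv
    refine ⟨c, hc, fun ε hε => ?_⟩
    obtain ⟨C, k⟩ := k 0 ε hε
    have t : Tendsto (fun p : V × V => ((x, p.1), (x, p.2))) (𝓝 (v, v)) (𝓝 ((x, v), (x, v))) :=
      Continuous.tendsto' (by fun_prop) _ _ rfl
    refine ⟨C, (t.eventually (eventually_nhdsWithin_iff.1 k)).mono fun p h h1 h2 => ?_⟩
    have := h ⟨h1, h2⟩
    simp only [o'.zero, sub_self, norm_zero, Prod.mk_sub_mk, Prod.norm_mk, MF.hor,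
      ContinuousLinearMap.comp_apply, ContinuousLinearMap.coe_fst', map_zero, inner_zero_right,
      sub_zero, max_eq_right (norm_nonneg (p.2 - p.1))] at this
    simpa [fr, MF.hor] using this
  · exact ⟨g.dif.comp (v : V) (hasFDerivAt_prodMk_right x (v : V)).differentiableAt,
      (g.bd o o' cf ha).1, (g.bd o o' cf ha).2.1, (g.pt o o' cf ha).t2⟩

theorem sfb {δ : ℝ} (h : CYF.SFIB δ) : SFB CY.LIPF δ :=
  fun _ m' φ lg a x o _ o' j' hl ha u0 u1 d cf fl L G D =>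
    h m' lg (fr φ x) a o' j' hl ha u0 u1 d (fr0 o o' cf fl ha L G) D

end Pool.Agent.MP_3ee8cb_gt.CYE
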