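import Pool.Agent.MP_3ee8cb_gt.DZ.RBG
import Pool.Agent.MP_3ee8cb_gt.CZE.EndN

/-! The diameter of the feet, and the end of the proof from almost everywhere data. -/

namespace Pool.Agent.MP_3ee8cb_gt.CYE

open DN (Dim dm)

variable [Dim]

open Set Filter Topology MeasureTheory Real DN DN.SC DZ
open CR (UT dd)
open scoped RealInnerProductSpace

/-- The feet over one point have diameter at most `3 / 2`. -/
theorem d0 {m : MF} {lg : V × V → V} {dX : V → V → ℝ} {P : Type} [TopologicalSpace P]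
    {A : Fam P} (hb : BF m lg dX A) (p q : P) (h : A.pr p = A.pr q) :
    ‖lg (A.ft p, A.ft q)‖ ≤ 3 / 2 := by
  obtain ⟨h1, h2, h3⟩ := hb.flp p
  obtain ⟨v, hv, hz⟩ := RBG.join hb.yw (A.ft p) (A.ft q) _ ((hb.isb p).unit (A.ft p))
  have a := (hb.isb p).lb (A.ft p) v ‖lg (A.ft p, A.ft q)‖ hv
  have b := (hb.isb (A.fl p)).lb (A.ft p) v ‖lg (A.ft p, A.ft q)‖ hv
  have f := hb.foot (A.fl p)
  rw [h2] at f
  rw [hz, hb.foot, exp_zero, one_mul] at a
  rw [hz, f, h3, inner_neg_left, exp_zero, one_mul] at b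
  have a' := a.trans ((exp_le_exp.2 (RBG.two hb p q h)).trans_eq (exp_log two_pos))
  have b' := b.trans ((exp_le_exp.2 (RBG.two hb _ q (h1.trans h))).trans_eq (exp_log two_pos))
  generalize ‖lg (A.ft p, A.ft q)‖ = L at a' b'
  by_contra hL
  have c := cosh_eq L
  have e := quadratic_le_exp_of_nonneg (x := L / 2) (by linarith)
  have e2 : exp L = exp (L / 2) * exp (L / 2) := by rw [← exp_add, add_halves]
  have e3 : 2 < exp (L / 2) := by nlinarith
  nlinarith [exp_pos (-L)]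

/-- Geodesics of the negatively curved space minimise. -/
theorem minP {h : CR.Met dm} {C : TB.Chr dm} {Ψ : ℝ → UT h → UT h} {m : MF} {lg : V × V → V}
    {ν : UT h → V → V} (add : ∀ s t p, Ψ (s + t) p = Ψ s (Ψ t p)) (nb : NB h C Ψ m lg ν) :
    CR.MinP h Ψ := fun p s t => by
  have k := nb.yw.had.xe (Ψ s p).1.1 ((t - s) • m.S (Ψ s p).1.1 (Ψ s p).1.2)
  rw [nb.yw.jac.scale, mul_one, nb.lk.flow, ← add, sub_add_cancel] at k
  rw [← nb.dist, k, norm_smul, norm_S nb.yw.ok nb.lk.orth, mul_one, Real.norm_eq_abs,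
    abs_sub_comm]

/-- If over almost every point all feet agree, the spaces are isometric. -/
def SENDA : Prop := On2 fun g h C C' _ _ _ _ _ _ Φ Ψ ρ F => ∀ m₀ m lg ν, m₀.OK → m₀.Jac →
  Lk g C Φ m₀ → NB h C' Ψ m lg ν →
  (∀ᵐ x, ∀ p q : UT g, p.1.1 = x → q.1.1 = x → (F p).1.1 = (F q).1.1) → Iso g h ρ

theorem sENDA : SENDA := by
  intro g h C C' Γ Λ _ _ _ _ Φ Ψ ρ F qg qh cg ch dΓ dΛ cj m₀ m lg ν ok hj lk nb ae
  refine sEND0 g h C C' Γ Λ Φ Ψ ρ F qg qh cg ch dΓ dΛ cj m₀ m ok hj nb.yw.ok nb.yw.jac lk nb.lk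
    (minP qh.add nb) fun p q e => ?_
  let s : UT g → V → UT g := fun p x => ⟨(x, m₀.R x (m₀.S p.1.1 p.1.2)), by
    rw [lk.orth, real_inner_self_eq_norm_sq, norm_S ok lk.orth p, one_pow]⟩
  have cs : ∀ p, Continuous fun x => (F (s p x)).1.1 := fun p =>
    (continuous_subtype_val.comp (F.continuous.comp ((continuous_id.prodMk
      (ok.cR.continuous.clm_apply continuous_const)).subtype_mk _))).fst
  have k := (Continuous.ae_eq_iff_eq volume (cs p) (cs q)).1
    (ae.mono fun x hx => hx (s p x) (s q x) rfl rfl)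
  have t : ∀ p, s p p.1.1 = p := fun p => Subtype.ext (Prod.ext rfl (ok.RS _ _))
  have k' := congrFun k p.1.1
  rw [t, e, t] at k'
  exact k'

/-- The same from almost all directions. -/
def SENDB : Prop := On2 fun g h C C' _ _ _ _ _ _ Φ Ψ ρ F => ∀ m₀ m lg ν, m₀.OK → m₀.Jac →
  Lk g C Φ m₀ → NB h C' Ψ m lg ν →
  (∀ᵐ x, ∃ o : V, ∀ᵐ a : Metric.sphere (0 : V) 1 ∂(volume : Measure V).toSphere,
    ∀ p : UT g, p.1.1 = x → m₀.S x p.1.2 = a → (F p).1.1 = o) → Iso g h ρ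

theorem sENDB : SENDB := by
  intro g h C C' Γ Λ _ _ _ _ Φ Ψ ρ F qg qh cg ch dΓ dΛ cj m₀ m lg ν ok hj lk nb ae
  refine sENDA g h C C' Γ Λ Φ Ψ ρ F qg qh cg ch dΓ dΛ cj m₀ m lg ν ok hj lk nb
    (ae.mono fun x ⟨o, ho⟩ => ?_)
  let s : Metric.sphere (0 : V) 1 → UT g := fun a => ⟨(x, m₀.R x a), by
    rw [lk.orth, real_inner_self_eq_norm_sq, mem_sphere_zero_iff_norm.1 a.2, one_pow]⟩
  have cs : Continuous fun a => (F (s a)).1.1 :=
    (continuous_subtype_val.comp (F.continuous.comp ((continuous_const.prodMk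
      ((m₀.R x).continuous.comp continuous_subtype_val)).subtype_mk _))).fst
  have k := (Continuous.ae_eq_iff_eq _ cs continuous_const).1
    (ho.mono fun a ha => ha (s a) rfl (ok.SR _ _))
  have t : ∀ p : UT g, p.1.1 = x → (F p).1.1 = o := fun p hp => by
    have n1 := mem_sphere_zero_iff_norm.2 (norm_S ok lk.orth p)
    have := congrFun k ⟨m₀.S p.1.1 p.1.2, n1⟩
    have w : m₀.R x (m₀.S p.1.1 p.1.2) = p.1.2 := by
      rw [← hp]
      exact ok.RS _ _
    have u : s ⟨m₀.S p.1.1 p.1.2, n1⟩ = p := Subtype.ext (Prod.ext hp.symm w)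
    rwa [u] at this
  exact fun p q hp hq => (t p hp).trans (t q hq).symm

end Pool.Agent.MP_3ee8cb_gt.CYE
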