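import Pool.Agent.MP_3ee8cb_gt.CYE.End
import Pool.Agent.MP_3ee8cb_gt.CYO.Spec
import Pool.Agent.MP_3ee8cb_gt.CY.Int
import Pool.Agent.MP_3ee8cb_gt.DZ.All

/-! Rigidity under a continuous conjugacy in every dimension, from four blocks. -/

namespace Pool.Agent.MP_3ee8cb_gt.CYE

open DN (Dim dm)

variable [Dim]

open Set Filter Topology MeasureTheory DN DN.SC
open CR (Met UT ng MinP tm)
open CYO (C0F Gd ms)
open scoped RealInnerProductSpace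

/-- `φ` is `F` read in the frames. -/
def Rep {g h : Met dm} (m m' : MF) (F : UT g → UT h) (φ : V × V → V × V) : Prop :=
  ∀ r p, r ≠ 0 → φ (dn m r p) = dn m' r (F p)

/-- The flip. -/
def Flp (φ : V × V → V × V) : Prop := ∀ x q, q ≠ 0 → φ (x, -q) = ((φ (x, q)).1, -(φ (x, q)).2)

def SCF0 : Prop := On2 fun g h C C' Γ Λ _ _ _ _ Φ Ψ ρ F => ∀ (m m' : MF) O O', m.OK → m.Jac →
  m'.OK → m'.Jac → Lk g C Φ m → Lk h C' Ψ m' → Act m Γ O → Act m' Λ O' →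
  (∀ p, F (ng p) = ng (F p)) → ∃ φ, C0F m m' φ ∧ Eqv ρ O O' φ ∧ Rep m m' F φ

/-- The property `L` holds for a flip equivariant conjugacy read in frames. -/
def SLP (L : MF → MF → (V × V → V × V) → ℝ → Prop) : Prop :=
  On2 fun g h C C' _ _ _ _ _ _ Φ Ψ _ F => ∀ (a : ℝ) (m m' : MF) (φ : V × V → V × V), 0 < a →
    TB.CurvLe h a → m.OK → m.Jac → m'.OK → m'.Jac → Lk g C Φ m → Lk h C' Ψ m' → MinP g Φ →
    (∀ p, F (ng p) = ng (F p)) → Rep m m' F φ → C0F m m' φ → L m m' φ a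

/-- Almost every vector is good. -/
def SGA (L : MF → MF → (V × V → V × V) → ℝ → Prop) : Prop :=
  ∀ (m m' : MF) (φ : V × V → V × V) (a : ℝ), m.OK → m.Jac → m'.OK → m'.Jac → C0F m m' φ →
    Flp φ → 0 < a → L m m' φ a → ∀ᵐ z : V × V, Gd m m' φ a (z.1, ‖z.2‖⁻¹ • z.2)

/-- The fibre inequality and its case of equality. -/
def SFB (L : MF → MF → (V × V → V × V) → ℝ → Prop) (δ : ℝ) : Prop :=
  ∀ (m m' : MF) (φ : V × V → V × V) (lg : V × V → V) (a : ℝ) (x : V), m.OK → m.Jac → m'.OK →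
    m'.Jac → m'.Had lg → 0 < a → m'.Up 0 → m'.Up (a ^ 2) → m'.Dn ((1 + δ) * a ^ 2) →
    C0F m m' φ → Flp φ → L m m' φ a →
    (∀ᵐ v : Metric.sphere (0 : V) 1 ∂(volume : Measure V).toSphere, Gd m m' φ a (x, v)) →
    (∀ v v', ‖v‖ = 1 → ‖v'‖ = 1 → a * ‖lg ((φ (x, v)).1, (φ (x, v')).1)‖ ≤ 3 / 2) →
    ms m' (fr φ x) a ≤ (volume : Measure V).toSphere univ ∧
      (ms m' (fr φ x) a = (volume : Measure V).toSphere univ →
        ∀ v v', ‖v‖ = 1 → ‖v'‖ = 1 → (φ (x, v)).1 = (φ (x, v')).1)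

theorem ext0 {g h : Met dm} {m m' : MF} (hm : m.OK) (ho : Ort g m) (hm' : m'.OK)
    {F : UT g → UT h} (hF : Continuous F) : ∃ φ : V × V → V × V, ContinuousOn φ {z | z.2 ≠ 0} ∧
      ∀ r p, 0 < r → φ (dn m r p) = dn m' r (F p) := by
  classical
  refine ⟨fun z => if hz : z.2 ≠ 0 then dn m' ‖z.2‖ (F ⟨nu m z, nu_mem ho hz⟩) else 0, ?_,
    fun r p hr => ?_⟩
  · rw [continuousOn_iff_continuous_domRestrict]
    have c1 : Continuous fun z : {z : V × V | z.2 ≠ 0} => (F ⟨nu m z.1, nu_mem ho z.2⟩).1 :=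
      continuous_subtype_val.comp (hF.comp (Continuous.subtype_mk
        (continuous_iff_continuousAt.2 fun z => (nu_cd hm z.2).continuousAt.comp
          continuous_subtype_val.continuousAt) _))
    have c2 : Continuous fun z : {z : V × V | z.2 ≠ 0} => ‖z.1.2‖ := by fun_prop
    refine (c1.fst.prodMk (c2.smul ((hm'.cS.continuous.comp c1.fst).clm_apply c1.snd))).congr
      fun z => ?_
    have hz : z.1.2 ≠ 0 := z.2
    simp only [domRestrict_apply, dif_pos hz]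
    rfl
  · have h0 := dn_ne hm ho hr.ne' p
    have e : (⟨nu m (dn m r p), nu_mem ho h0⟩ : UT g) = p := Subtype.ext (nu_dn hm ho hr p)
    simp only [dif_pos h0]
    rw [e, norm_dn hm ho, abs_of_pos hr]

theorem sCF0 : SCF0 := by
  intro g h C C' Γ Λ _ _ _ _ Φ Ψ ρ F qg _ _ _ _ _ cj m m' O O' hm hj hm' hj' hl hl' ha ha' hn
  have ho : Ort g m := hl.orth
  have ho' : Ort h m' := hl'.orth
  obtain ⟨φ, c1, k0⟩ := ext0 hm ho hm' F.continuous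
  have k1 : ∀ r p, r ≠ 0 → φ (dn m r p) = dn m' r (F p) := fun r p hr => by
    rcases hr.lt_or_gt with h3 | h3
    · rw [← dn_ng, k0 _ _ (neg_pos.2 h3), hn, dn_ng]
    · exact k0 r p h3
  have pos : ∀ {a : V}, a ≠ 0 → 0 < ‖a‖ := fun h => norm_pos_iff.2 h
  refine ⟨φ, ⟨c1, fun r x v hr hv => ?_, fun z hz => ?_, fun t z hz => ?_⟩, fun γ z hz => ?_, k1⟩
  · obtain ⟨p, e⟩ := exists_dn hm ho (z := (x, v)) hv
    have e2 : (x, r • v) = dn m (r * ‖v‖) p := by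
      rw [dn, mul_smul]
      exact congrArg (fun z : V × V => (z.1, r • z.2)) e
    rw [e2, congrArg φ e, k0 _ _ (mul_pos hr (pos hv)), k0 _ _ (pos hv), dn, dn, mul_smul]
  · obtain ⟨p, e⟩ := exists_dn hm ho hz
    rw [congrArg φ e, k0 _ _ (pos hz), norm_dn hm' ho', abs_norm]
  · obtain ⟨p, e⟩ := exists_dn hm ho hz
    obtain ⟨r, hr⟩ : ∃ r, r = ‖z.2‖ := ⟨_, rfl⟩
    have r0 : 0 < r := hr ▸ pos hz
    rw [← hr] at e
    rw [e, Z_dn hj hl, k0 _ _ r0, k0 _ _ r0, Z_dn hj' hl', cj.flow]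
  · obtain ⟨p, e⟩ := exists_dn hm ho hz
    obtain ⟨r, hr⟩ : ∃ r, r = ‖z.2‖ := ⟨_, rfl⟩
    have r0 : 0 < r := hr ▸ pos hz
    rw [← hr] at e
    let q : UT g := ⟨tm γ p.1, (qg.rp.deck.iso γ p.1.1 p.1.2 p.1.2).trans p.2⟩
    rw [e, act_dn ha γ r (q := q) rfl, k0 _ _ r0, k0 _ _ r0, act_dn ha' _ r (cj.equi γ p q rfl)]

theorem Rep.flp {g h : Met dm} {m m' : MF} (hm : m.OK) (ho : Ort g m) {F : UT g → UT h}
    {φ : V × V → V × V} (r : Rep m m' F φ) : Flp φ := fun x q hq => by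
  obtain ⟨p, e⟩ := exists_dn hm ho (z := (x, q)) hq
  have n := norm_ne_zero_iff.2 hq
  have e2 : (x, -q) = dn m (-‖q‖) p := by
    rw [dn, neg_smul]
    exact congrArg (fun z : V × V => (z.1, -z.2)) e
  rw [e2, congrArg φ e, r _ _ (neg_ne_zero.2 n), r _ _ n, dn, dn, neg_smul]

theorem mainZ_of {L : MF → MF → (V × V → V × V) → ℝ → Prop} {δ : ℝ} (lip : SLP L) (gda : SGA L)
    (fib : SFB L δ) (ode : CYO.SODE) : SLN.MainZ δ := by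
  intro g h C C' Γ Λ _ _ _ _ Φ Ψ ρ F₀ qg qh cg ch dΓ dΛ cj₀ kh
  have kh' : TB.CurvLe h 1 := ⟨C', ch, fun x u v => by simpa using (kh x u v).2⟩
  obtain ⟨m₀, o₀, l₀⟩ := sFRM g C Γ Φ qg cg
  obtain ⟨m, o, l⟩ := sFRM h C' Λ Ψ qh ch
  have j₀ := sJAC m₀ o₀
  have j := sJAC m o
  obtain ⟨O₀, aO₀⟩ := sACT g C Γ Φ qg cg m₀ o₀ l₀ dΓ
  obtain ⟨O, aO⟩ := sACT h C' Λ Ψ qh ch m o l dΛ
  obtain ⟨lg, hl, hd⟩ := DNFL.had h C' Λ Ψ qh ch m 1 o j l one_pos kh'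
  obtain ⟨mn, s, F, -, cj, fp⟩ :=
    DNFL.flp g h C C' Γ Λ Φ Ψ ρ F₀ qg qh cg ch dΓ dΛ cj₀ 1 one_pos kh'
  have cs : ∀ u v : V, 0 ≤ ‖u‖ ^ 2 * ‖v‖ ^ 2 - ⟪u, v⟫ ^ 2 := fun u v => by
    have := real_inner_mul_inner_self_le u v
    rw [real_inner_self_eq_norm_sq, real_inner_self_eq_norm_sq] at this
    nlinarith
  have u1 : m.Up 1 := fun y u v => by
    have := (kh y (m.R y u) (m.R y v)).2
    rw [(l.sec o y u v).1, ← (l.sec o y u v).2]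
    linarith
  have d1 : m.Dn (1 + δ) := fun y u v => by
    have := (kh y (m.R y u) (m.R y v)).1
    rw [(l.sec o y u v).1, ← (l.sec o y u v).2]
    linarith
  have u0 : m.Up 0 := fun y u v =>
    le_trans (mul_le_mul_of_nonneg_right zero_le_one (cs u v)) (u1 y u v)
  have u2 : m.Up (1 ^ 2) := by rwa [one_pow]
  have yw : DZ.YW m lg := ⟨o, j, hl, u0⟩
  have as := DZ.sASY h C' Λ Ψ qh ch kh'
  obtain ⟨ν, hν⟩ := DZ.sEXA h C' Λ Ψ qh ch m lg kh' as yw l hd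
  have nb : DZ.NB h C' Ψ m lg ν := ⟨kh', yw, l, hd, as, DZ.sBC h C' Λ Ψ qh ch kh',
    fun w => (hν w).1, fun w => DZ.sB1 m lg _ _ yw (hν w).1, fun w => (hν w).2⟩
  have B := DZ.sBF DZ.sMOV DZ.sLIP DZ.sGR g h C C' Γ Λ Φ Ψ ρ F qg qh cg ch dΓ dΛ cj m lg ν nb fp
  obtain ⟨φ, cf, eq, rp⟩ := sCF0 g h C C' Γ Λ Φ Ψ ρ F qg qh cg ch dΓ dΛ cj m₀ m O₀ O o₀ j₀ o j
    l₀ l aO₀ aO fp
  have fl := rp.flp o₀ l₀.orth
  have P := lip g h C C' Γ Λ Φ Ψ ρ F qg qh cg ch dΓ dΛ cj 1 m₀ m φ one_pos kh' o₀ j₀ o j l₀ l mn fp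
    rp cf
  have G := gda m₀ m φ 1 o₀ j₀ o j cf fl one_pos P
  have ft : ∀ p : UT g, (φ (p.1.1, m₀.S p.1.1 p.1.2)).1 = (F p).1.1 := fun p => by
    have e := rp 1 p one_ne_zero
    simp only [dn, one_smul] at e
    rw [e]
  have ex : ∀ x v : V, ‖v‖ = 1 → ∃ p : UT g, p.1.1 = x ∧ (φ (x, v)).1 = (F p).1.1 := by
    intro x v hv
    let p : UT g := ⟨(x, m₀.R x v), by rw [l₀.orth, real_inner_self_eq_norm_sq, hv, one_pow]⟩
    have := ft p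
    rw [show m₀.S p.1.1 p.1.2 = v from o₀.SR _ _] at this
    exact ⟨p, rfl, this⟩
  have K := (CY.ae_tr (R := Gd m₀ m φ 1) (G.mono fun z hz _ => hz)).mono fun x hx =>
    fib m₀ m φ lg 1 x o₀ j₀ o j hl one_pos u0 u2 (by rwa [one_pow, mul_one]) cf fl P hx
      fun v v' hv hv' => by
        obtain ⟨p, e, f⟩ := ex x v hv
        obtain ⟨p', e', f'⟩ := ex x v' hv'
        rw [one_mul, f, f']
        exact d0 B p p' (e.trans e'.symm)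
  have k := ode m₀ m φ Γ Λ ρ O₀ O 1 o₀ j₀ o j cf aO₀ aO eq (CR.fd dm g Γ qg.rp.deck) one_pos u2 G
    (K.mono fun x hx => hx.1)
  refine sENDA g h C C' Γ Λ Φ Ψ ρ F qg qh cg ch dΓ dΛ cj m₀ m lg ν o₀ j₀ l₀ nb ?_
  filter_upwards [K, k] with x h1 h2 p q hp hq
  have := h1.2 h2 _ _ (norm_S o₀ l₀.orth p) (norm_S o₀ l₀.orth q)
  rw [← ft, ← ft]
  subst hp
  rw [this, hq]

omit [Dim] in
theorem anti [Dim] {δ δ' : ℝ} (h : δ' ≤ δ) (A : SLN.MainZ δ) : SLN.MainZ δ' := by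
  intro g h _ C' Γ Λ _ _ _ _ Φ Ψ ρ F qg qh c c' dΓ dΛ cj K
  refine A g h _ C' Γ Λ Φ Ψ ρ F qg qh c c' dΓ dΛ cj fun x u v => ⟨le_trans ?_ (K x u v).1, (K x u v).2⟩
  exact mul_le_mul_of_nonneg_right (by linarith) (sub_nonneg.2 (TB.mod_cs qh.rp.riem x u v))

end Pool.Agent.MP_3ee8cb_gt.CYE
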